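import Pool.Agent.Q299.BF.Red
import Pool.Agent.Results.MP_e8ee11_co.SparseBeckFiala
import Pool.Agent.H286R2.UC.Final

/-!
# Beck–Fiala for set systems with the relative union property

If for all members `S, T, U` some member `V` has `V ∩ S = (T ∪ U) ∩ S`, then after deletion of
pairs of twins every member has at most `4 t` elements.
-/

set_option autoImplicit false

open Finset

namespace Q112.BFC

/-- relative union property -/
def RelUnion {n : ℕ} (F : Finset (Finset (Fin n))) : Prop :=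
  ∀ S ∈ F, ∀ T ∈ F, ∀ U ∈ F, ∃ V ∈ F, V ∩ S = (T ∪ U) ∩ S

theorem sup_mem_of_union_closed {n : ℕ} (G : Finset (Finset (Fin n)))
    (hG : ∀ X ∈ G, ∀ Y ∈ G, X ∪ Y ∈ G) (A : Finset (Finset (Fin n))) (hA : A ⊆ G) :
    A.sup id ∈ insert ∅ G := by
  classical
  induction A using Finset.induction_on with
  | empty => simp
  | insert a A ha ih =>
    have h1 := ih ((subset_insert _ _).trans hA)
    have h2 : a ∈ G := hA (mem_insert_self _ _)
    rw [sup_insert, id, sup_eq_union]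
    rcases mem_insert.1 h1 with h | h
    · rw [h, union_empty]
      exact mem_insert_of_mem h2
    · exact mem_insert_of_mem (hG _ h2 _ h)

theorem trace_small {n : ℕ} (F : Finset (Finset (Fin n))) (t : ℕ)
    (hd : ∀ v, (F.filter fun S => v ∈ S).card ≤ t) (hF : RelUnion F) (X : Finset (Fin n))
    (hX : ∀ j ∈ X, ∀ k ∈ X, j ≠ k → ∃ S ∈ F, ¬ (j ∈ S ↔ k ∈ S)) (S : Finset (Fin n))
    (hS : S ∈ F) : (S ∩ X).card ≤ 4 * t := by
  classical
  rcases S.eq_empty_or_nonempty with rfl | hne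
  · simp
  set G := F.image (fun T => T ∩ S) with hG
  have hGu : ∀ A ∈ G, ∀ B ∈ G, A ∪ B ∈ G := by
    intro A hA B hB
    obtain ⟨T, hT, rfl⟩ := mem_image.1 hA
    obtain ⟨U, hU, rfl⟩ := mem_image.1 hB
    obtain ⟨V, hV, hVS⟩ := hF S hS T hT U hU
    refine mem_image.2 ⟨V, hV, ?_⟩
    rw [hVS, union_inter_distrib_right]
  have hSG : S ∈ G := mem_image.2 ⟨S, hS, inter_self S⟩
  obtain ⟨x, hx⟩ := Pool.Agent.H286R2.UC.union_closed_385 G hGu ⟨S, hSG, hne⟩
  have hGpos : 0 < G.card := card_pos.2 ⟨S, hSG⟩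
  have hGposR : (0 : ℝ) < G.card := by exact_mod_cast hGpos
  have h1 : (G.filter (fun A => x ∈ A)).card ≤ t := by
    refine le_trans ?_ (hd x)
    have : G.filter (fun A => x ∈ A) ⊆ (F.filter fun T => x ∈ T).image (fun T => T ∩ S) := by
      intro A hA
      obtain ⟨h2, h3⟩ := mem_filter.1 hA
      obtain ⟨T, hT, rfl⟩ := mem_image.1 h2
      exact mem_image.2 ⟨T, mem_filter.2 ⟨hT, (mem_inter.1 h3).1⟩, rfl⟩
    exact (card_le_card this).trans card_image_le
  have h1R : ((G.filter (fun A => x ∈ A)).card : ℝ) ≤ t := by exact_mod_cast h1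
  have hGt : (G.card : ℝ) ≤ 3 * t := by nlinarith
  have ht1 : 1 ≤ t := by
    by_contra h
    have h0 : (t : ℝ) = 0 := by
      have : t = 0 := by omega
      exact_mod_cast this
    rw [h0] at hGt
    linarith
  have hGt' : G.card ≤ 3 * t := by exact_mod_cast hGt
  have hinj : (S ∩ X).card ≤ (insert ∅ G).card := by
    refine card_le_card_of_injOn (fun j => (G.filter fun A => j ∉ A).sup id) ?_ ?_
    · intro j _
      exact sup_mem_of_union_closed G hGu _ (filter_subset _ _)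
    · intro j hj k hk hjk
      by_contra hne'
      obtain ⟨hjS, hjX⟩ := mem_inter.1 hj
      obtain ⟨hkS, hkX⟩ := mem_inter.1 hk
      obtain ⟨T, hT, hTjk⟩ := hX j hjX k hkX hne'
      have key : ∀ a b : Fin n, a ∈ S → a ∈ T → b ∉ T →
          (G.filter fun A => a ∉ A).sup id = (G.filter fun A => b ∉ A).sup id → False := by
        intro a b haS haT hbT hab
        have h2 : a ∈ (G.filter fun A => b ∉ A).sup id := by
          rw [mem_sup]
          exact ⟨T ∩ S, mem_filter.2 ⟨mem_image.2 ⟨T, hT, rfl⟩,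
            fun h => hbT (mem_inter.1 h).1⟩, mem_inter.2 ⟨haT, haS⟩⟩
        rw [← hab, mem_sup] at h2
        obtain ⟨A, hA, haA⟩ := h2
        exact (mem_filter.1 hA).2 haA
      by_cases hjT : j ∈ T
      · by_cases hkT : k ∈ T
        · exact hTjk ⟨fun _ => hkT, fun _ => hjT⟩
        · exact key j k hjS hjT hkT hjk
      · by_cases hkT : k ∈ T
        · exact key k j hkS hkT hjT hjk.symm
        · exact hTjk ⟨fun h => absurd h hjT, fun h => absurd h hkT⟩
  have h3 : (insert ∅ G).card ≤ G.card + 1 := card_insert_le _ _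
  omega

/-- enumeration of a family -/
theorem enum {n : ℕ} (F : Finset (Finset (Fin n))) :
    ∃ S : Fin F.card → Finset (Fin n), (∀ i, S i ∈ F) ∧ (∀ T ∈ F, ∃ i, S i = T) ∧
      ∀ v, (univ.filter fun i => v ∈ S i).card = (F.filter fun T => v ∈ T).card := by
  classical
  refine ⟨fun i => (F.equivFin.symm i : Finset (Fin n)), fun i => (F.equivFin.symm i).2,
    fun T hT => ⟨F.equivFin ⟨T, hT⟩, by simp⟩, fun v => ?_⟩
  refine card_bij (fun i _ => (F.equivFin.symm i : Finset (Fin n))) ?_ ?_ ?_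
  · intro i hi
    exact mem_filter.2 ⟨(F.equivFin.symm i).2, (mem_filter.1 hi).2⟩
  · intro i _ j _ h
    exact F.equivFin.symm.injective (Subtype.ext h)
  · intro T hT
    obtain ⟨h1, h2⟩ := mem_filter.1 hT
    exact ⟨F.equivFin ⟨T, h1⟩, by simp [h2], by simp⟩

theorem empty_of_deg_zero {n : ℕ} (F : Finset (Finset (Fin n)))
    (hd : ∀ v, (F.filter fun S => v ∈ S).card ≤ 0) (S : Finset (Fin n)) (hS : S ∈ F) : S = ∅ := by
  classical
  rw [eq_empty_iff_forall_notMem]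
  intro v hv
  have h1 : 0 < (F.filter fun S => v ∈ S).card := card_pos.2 ⟨S, mem_filter.2 ⟨hS, hv⟩⟩
  have := hd v
  omega

/-- **Beck–Fiala bound under the relative union property.** -/
theorem relUnion_bf : ∃ C : ℝ, 0 < C ∧ ∀ (n t : ℕ) (F : Finset (Finset (Fin n))),
    (∀ v, (F.filter fun S => v ∈ S).card ≤ t) → RelUnion F →
    ∃ x : Fin n → ℝ, (∀ j, x j = 1 ∨ x j = -1) ∧ ∀ S ∈ F, |∑ j ∈ S, x j| ≤ C * Real.sqrt t := by
  classical
  obtain ⟨C, hC, h⟩ := Pool.Agent.Results.MP_e8ee11_co.SparseBeckFiala.result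
  refine ⟨3 * C, by positivity, fun n t F hd hF => ?_⟩
  rcases Nat.eq_zero_or_pos t with rfl | htpos
  · refine ⟨fun _ => 1, fun _ => Or.inl rfl, fun S hS => ?_⟩
    rw [empty_of_deg_zero F hd S hS]
    simp
  obtain ⟨S, hSF, hFS, hcard⟩ := enum F
  obtain ⟨X, hX, hred⟩ := Pool.Agent.Q299.BF.reduction S 0
  have hX' : ∀ j ∈ X, ∀ k ∈ X, j ≠ k → ∃ T ∈ F, ¬ (j ∈ T ↔ k ∈ T) := by
    intro j hj k hk hjk
    obtain ⟨i, hi⟩ := card_pos.1 (hX j hj k hk hjk)
    exact ⟨S i, hSF i, (mem_filter.1 hi).2⟩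
  obtain ⟨χ, hχ, hb⟩ := h n F.card t (4 * t) (fun i => S i ∩ X)
    (by
      intro v
      refine le_trans (card_le_card ?_) ((hcard v).le.trans (hd v))
      intro i hi
      have := (mem_filter.1 hi).2
      exact mem_filter.2 ⟨mem_univ _, (mem_inter.1 this).1⟩)
    (fun i => trace_small F t hd hF X hX' (S i) (hSF i))
  obtain ⟨x, hx, hxS⟩ := hred (fun j => (χ j : ℝ)) (by
    intro j
    rcases hχ j with h | h <;> simp [h])
  refine ⟨x, hx, fun T hT => ?_⟩
  obtain ⟨i, rfl⟩ := hFS T hT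
  refine (hxS i).trans ?_
  rw [Nat.cast_zero, zero_add]
  have h1 := hb i
  have e1 : |∑ j ∈ S i ∩ X, (χ j : ℝ)| = ((|∑ j ∈ S i ∩ X, χ j| : ℤ) : ℝ) := by
    push_cast
    rfl
  rw [e1]
  refine h1.trans ?_
  have ht : (1 : ℝ) ≤ t := by exact_mod_cast htpos
  have h2 : ((S i ∩ X).card : ℝ) ≤ 4 * t := by
    exact_mod_cast trace_small F t hd hF X hX' (S i) (hSF i)
  have h3 : (((4 * t : ℕ) : ℝ)) ^ (2 / 3 : ℝ) ≤ 4 * t := by
    push_cast
    have h4 : (1 : ℝ) ≤ 4 * t := by linarith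
    calc (4 * (t : ℝ)) ^ (2 / 3 : ℝ) ≤ (4 * (t : ℝ)) ^ (1 : ℝ) :=
          Real.rpow_le_rpow_of_exponent_le h4 (by norm_num)
      _ = _ := Real.rpow_one _
  have h5 : Real.sqrt ((t : ℝ) + ((S i ∩ X).card : ℝ) + ((4 * t : ℕ) : ℝ) ^ (2 / 3 : ℝ)) ≤
      3 * Real.sqrt t := by
    rw [Real.sqrt_le_left (by positivity), mul_pow, Real.sq_sqrt (by linarith)]
    linarith
  nlinarith

end Q112.BFC
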