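import Pool.Agent.Q189.Spencer3
import Pool.Agent.Q112.BFC.Rel

/-!
# Beck–Fiala for systems with few sets, for complement-closed, affine and median systems
-/

set_option autoImplicit false

open Finset

namespace Q112.BFC

/-- at most `2 t + 1` sets -/
theorem few {n : ℕ} (t : ℕ) (F : Finset (Finset (Fin n)))
    (hd : ∀ v, (F.filter fun S => v ∈ S).card ≤ t) (hF : F.card ≤ 2 * t + 1) :
    ∃ x : Fin n → ℝ, (∀ j, x j = 1 ∨ x j = -1) ∧ ∀ S ∈ F, |∑ j ∈ S, x j| ≤ 8002 * Real.sqrt t := by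
  classical
  rcases Nat.eq_zero_or_pos t with rfl | htpos
  · refine ⟨fun _ => 1, fun _ => Or.inl rfl, fun S hS => ?_⟩
    rw [empty_of_deg_zero F hd S hS]
    simp
  obtain ⟨S, hSF, hFS, -⟩ := enum F
  obtain ⟨x, hx, hb⟩ := Q189.Spencer.spencer (fun (i : Fin n) (k : Fin F.card) =>
    if i ∈ S k then (1 : ℝ) else 0) (by intro i k; split_ifs <;> simp)
  refine ⟨x, hx, fun T hT => ?_⟩
  obtain ⟨i, rfl⟩ := hFS T hT
  have h1 := hb i
  have e : ∑ j, x j * (if j ∈ S i then (1 : ℝ) else 0) = ∑ j ∈ S i, x j := by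
    simp only [mul_ite, mul_one, mul_zero]
    rw [← sum_filter]
    refine sum_congr (by ext j; simp) fun _ _ => rfl
  rw [e] at h1
  refine h1.trans ?_
  have ht : (1 : ℝ) ≤ t := by exact_mod_cast htpos
  have h2 : (F.card : ℝ) ≤ 2 * t + 1 := by exact_mod_cast hF
  have h3 : Real.sqrt (F.card : ℝ) ≤ 2 * Real.sqrt t := by
    rw [Real.sqrt_le_left (by positivity), mul_pow, Real.sq_sqrt (by linarith)]
    linarith
  linarith

theorem compl_few {n : ℕ} (t : ℕ) (F : Finset (Finset (Fin n)))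
    (hd : ∀ v, (F.filter fun S => v ∈ S).card ≤ t)
    (hc : ∀ S ∈ F, ∃ V ∈ F, ∀ x, x ∈ V ↔ x ∉ S) : F.card ≤ 2 * t + 1 := by
  classical
  rcases Nat.eq_zero_or_pos n with rfl | hn
  · have : F ⊆ {∅} := fun S _ => by
      rw [mem_singleton]
      exact Subsingleton.elim _ _
    have := card_le_card this
    rw [card_singleton] at this
    omega
  · set v : Fin n := ⟨0, hn⟩
    have h1 : (F.filter fun S => v ∉ S).card ≤ (F.filter fun S => v ∈ S).card := by
      refine card_le_card_of_injOn (fun S => Sᶜ) ?_ fun S _ T _ h => compl_injective h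
      intro S hS
      have hS' := mem_filter.1 hS
      obtain ⟨V, hV, hx⟩ := hc S hS'.1
      have e : V = Sᶜ := by ext x; rw [hx, mem_compl]
      refine mem_coe.2 (mem_filter.2 ⟨?_, ?_⟩)
      · change Sᶜ ∈ F
        rw [← e]
        exact hV
      · change v ∈ Sᶜ
        rw [← e]
        exact (hx v).2 hS'.2
    have h2 := card_filter_add_card_filter_not (s := F) (fun S => v ∈ S)
    have := hd v
    omega

theorem affine_few {n : ℕ} (t : ℕ) (F : Finset (Finset (Fin n)))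
    (hd : ∀ v, (F.filter fun S => v ∈ S).card ≤ t)
    (hc : ∀ S ∈ F, ∀ T ∈ F, ∀ U ∈ F, ∃ V ∈ F, ∀ x, x ∈ V ↔
      (xor (decide (x ∈ S)) (xor (decide (x ∈ T)) (decide (x ∈ U)))) = true) :
    F.card ≤ 2 * t + 1 := by
  classical
  by_cases h : ∃ v : Fin n, ∃ A ∈ F, ∃ B ∈ F, v ∈ A ∧ v ∉ B
  · obtain ⟨v, A, hA, B, hB, hvA, hvB⟩ := h
    have key : ∀ S ∈ F, ∃ V ∈ F, V = symmDiff S (symmDiff A B) := by
      intro S hS
      obtain ⟨V, hV, hx⟩ := hc S hS A hA B hB
      refine ⟨V, hV, ?_⟩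
      ext x
      rw [hx]
      simp only [mem_symmDiff]
      by_cases h1 : x ∈ S <;> by_cases h2 : x ∈ A <;> by_cases h3 : x ∈ B <;> simp [h1, h2, h3]
    have h1 : (F.filter fun S => v ∉ S).card ≤ (F.filter fun S => v ∈ S).card := by
      refine card_le_card_of_injOn (fun S => symmDiff S (symmDiff A B)) ?_
        fun S _ T _ h => symmDiff_left_injective _ h
      intro S hS
      have hS' := mem_filter.1 hS
      obtain ⟨V, hV, rfl⟩ := key S hS'.1
      refine mem_coe.2 (mem_filter.2 ⟨hV, ?_⟩)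
      rw [mem_symmDiff, mem_symmDiff]
      right
      exact ⟨Or.inl ⟨hvA, hvB⟩, hS'.2⟩
    have h2 := card_filter_add_card_filter_not (s := F) (fun S => v ∈ S)
    have := hd v
    omega
  · push Not at h
    have : F.card ≤ 1 := by
      rw [card_le_one]
      intro A hA B hB
      ext v
      exact ⟨fun h1 => h v A hA B hB h1, fun h1 => h v B hB A hA h1⟩
    omega

/-- Helly property of families closed under majority -/
theorem helly {n : ℕ} (F : Finset (Finset (Fin n))) (hne : F.Nonempty)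
    (hc : ∀ S ∈ F, ∀ T ∈ F, ∀ U ∈ F, ∃ V ∈ F, ∀ x, x ∈ V ↔
      ((x ∈ S ∧ x ∈ T) ∨ (x ∈ T ∧ x ∈ U) ∨ (x ∈ S ∧ x ∈ U)))
    (h2 : ∀ v w : Fin n, ∃ S ∈ F, v ∉ S ∧ w ∉ S) :
    ∀ (c : ℕ) (A : Finset (Fin n)), A.card = c → ∃ S ∈ F, ∀ x ∈ A, x ∉ S := by
  classical
  intro c
  induction c using Nat.strong_induction_on with
  | _ c ih =>
    intro A hA
    by_cases h3 : 2 < A.card
    · obtain ⟨a, b, d, ha, hb, hdd, hab, had, hbd⟩ := two_lt_card_iff.1 h3
      have hlt : ∀ y ∈ A, (A.erase y).card < c := by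
        intro y hy
        rw [card_erase_of_mem hy, hA]
        omega
      obtain ⟨S, hS, hS'⟩ := ih _ (hlt a ha) (A.erase a) rfl
      obtain ⟨T, hT, hT'⟩ := ih _ (hlt b hb) (A.erase b) rfl
      obtain ⟨U, hU, hU'⟩ := ih _ (hlt d hdd) (A.erase d) rfl
      obtain ⟨V, hV, hx⟩ := hc S hS T hT U hU
      refine ⟨V, hV, fun x hxA hxV => ?_⟩
      have e1 : x ∈ S → x = a := fun h => by
        by_contra hne'
        exact hS' x (mem_erase.2 ⟨hne', hxA⟩) h
      have e2 : x ∈ T → x = b := fun h => by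
        by_contra hne'
        exact hT' x (mem_erase.2 ⟨hne', hxA⟩) h
      have e3 : x ∈ U → x = d := fun h => by
        by_contra hne'
        exact hU' x (mem_erase.2 ⟨hne', hxA⟩) h
      rcases (hx x).1 hxV with ⟨h, h'⟩ | ⟨h, h'⟩ | ⟨h, h'⟩
      · exact hab ((e1 h).symm.trans (e2 h'))
      · exact hbd ((e2 h).symm.trans (e3 h'))
      · exact had ((e1 h).symm.trans (e3 h'))
    · rcases Nat.eq_zero_or_pos A.card with h0 | hpos
      · obtain ⟨S, hS⟩ := hne
        refine ⟨S, hS, fun x hx => ?_⟩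
        rw [card_eq_zero.1 h0] at hx
        exact absurd hx (notMem_empty _)
      · have : A.card = 1 ∨ A.card = 2 := by omega
        rcases this with h | h
        · obtain ⟨a, rfl⟩ := card_eq_one.1 h
          obtain ⟨S, hS, h4, -⟩ := h2 a a
          refine ⟨S, hS, fun x hx => ?_⟩
          rw [mem_singleton.1 hx]
          exact h4
        · obtain ⟨a, b, -, rfl⟩ := card_eq_two.1 h
          obtain ⟨S, hS, h4, h5⟩ := h2 a b
          refine ⟨S, hS, fun x hx => ?_⟩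
          rcases mem_insert.1 hx with rfl | hx
          · exact h4
          · rw [mem_singleton.1 hx]
            exact h5

theorem median_relUnion {n : ℕ} (t : ℕ) (F : Finset (Finset (Fin n)))
    (hd : ∀ v, (F.filter fun S => v ∈ S).card ≤ t) (hF : 2 * t + 1 < F.card)
    (hc : ∀ S ∈ F, ∀ T ∈ F, ∀ U ∈ F, ∃ V ∈ F, ∀ x, x ∈ V ↔
      ((x ∈ S ∧ x ∈ T) ∨ (x ∈ T ∧ x ∈ U) ∨ (x ∈ S ∧ x ∈ U))) : RelUnion F := by
  classical
  have h2 : ∀ v w : Fin n, ∃ S ∈ F, v ∉ S ∧ w ∉ S := by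
    intro v w
    by_contra hcon
    push Not at hcon
    have : F ⊆ (F.filter fun S => v ∈ S) ∪ (F.filter fun S => w ∈ S) := by
      intro S hS
      by_cases hv : v ∈ S
      · exact mem_union_left _ (mem_filter.2 ⟨hS, hv⟩)
      · exact mem_union_right _ (mem_filter.2 ⟨hS, hcon S hS hv⟩)
    have h3 := (card_le_card this).trans (card_union_le _ _)
    have := hd v
    have := hd w
    omega
  have hne : F.Nonempty := card_pos.1 (by omega)
  obtain ⟨E, hE, hE'⟩ := helly F hne hc h2 _ univ rfl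
  have hEe : E = ∅ := by
    rw [eq_empty_iff_forall_notMem]
    exact fun x => hE' x (mem_univ _)
  subst hEe
  intro S hS T hT U hU
  obtain ⟨A, hA, hA'⟩ := hc S hS T hT ∅ hE
  obtain ⟨B, hB, hB'⟩ := hc S hS U hU ∅ hE
  obtain ⟨V, hV, hV'⟩ := hc S hS A hA B hB
  refine ⟨V, hV, ?_⟩
  ext x
  have h3 := hA' x
  have h4 := hB' x
  have h5 := hV' x
  simp only [notMem_empty, and_false, or_false] at h3 h4
  rw [mem_inter, mem_inter, mem_union, h5, h3, h4]
  tauto

/-- **Beck–Fiala for median-closed systems.** -/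
theorem median_bf {C : ℝ} (hC : ∀ (n t : ℕ) (F : Finset (Finset (Fin n))),
    (∀ v, (F.filter fun S => v ∈ S).card ≤ t) → RelUnion F →
    ∃ x : Fin n → ℝ, (∀ j, x j = 1 ∨ x j = -1) ∧ ∀ S ∈ F, |∑ j ∈ S, x j| ≤ C * Real.sqrt t)
    {n : ℕ} (t : ℕ) (F : Finset (Finset (Fin n)))
    (hd : ∀ v, (F.filter fun S => v ∈ S).card ≤ t)
    (hc : ∀ S ∈ F, ∀ T ∈ F, ∀ U ∈ F, ∃ V ∈ F, ∀ x, x ∈ V ↔
      ((x ∈ S ∧ x ∈ T) ∨ (x ∈ T ∧ x ∈ U) ∨ (x ∈ S ∧ x ∈ U))) :
    ∃ x : Fin n → ℝ, (∀ j, x j = 1 ∨ x j = -1) ∧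
      ∀ S ∈ F, |∑ j ∈ S, x j| ≤ (max C 8002) * Real.sqrt t := by
  by_cases h : F.card ≤ 2 * t + 1
  · obtain ⟨x, hx, hb⟩ := few t F hd h
    exact ⟨x, hx, fun S hS => (hb S hS).trans (by gcongr; exact le_max_right _ _)⟩
  · obtain ⟨x, hx, hb⟩ := hC n t F hd (median_relUnion t F hd (by omega) hc)
    exact ⟨x, hx, fun S hS => (hb S hS).trans (by gcongr; exact le_max_left _ _)⟩

end Q112.BFC
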