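import Mathlib

/-!
# Boolean operations: minors

A set `P` of ternary Boolean operations that contains the projections and is closed under
composition with a Boolean operation `f` contains the negation, the sum of three variables, the
majority, the disjunction or `a ∧ (b ∨ c)`, unless `f` is constantly false or a conjunction of
variables.
-/

set_option autoImplicit false

open Finset

namespace Q112.BFC

/-- ternary Boolean operations -/
abbrev Op3 := Bool → Bool → Bool → Bool

/-- `f` is the conjunction of the variables in some set (constantly true for the empty set) -/
def IsConj {k : ℕ} (f : (Fin k → Bool) → Bool) : Prop :=
  ∃ I : Finset (Fin k), ∀ v, f v = true ↔ ∀ i ∈ I, v i = true

theorem conj_of_closed {k : ℕ} (f : (Fin k → Bool) → Bool) (h1 : ∃ v, f v = true)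
    (hmono : ∀ v w : Fin k → Bool, (∀ i, v i = true → w i = true) → f v = true → f w = true)
    (hand : ∀ v w : Fin k → Bool, f v = true → f w = true → f (fun i => v i && w i) = true) :
    IsConj f := by
  classical
  obtain ⟨v, hv, hmin⟩ := (Finset.univ.filter fun v : Fin k → Bool => f v = true).exists_min_image
    (fun v => (univ.filter fun i => v i = true).card) (by
      obtain ⟨v, hv⟩ := h1
      exact ⟨v, by simp [hv]⟩)
  have hfv : f v = true := (mem_filter.1 hv).2
  refine ⟨univ.filter fun i => v i = true, fun w => ⟨fun hw i hi => ?_, fun hw => ?_⟩⟩
  · have hvi : v i = true := (mem_filter.1 hi).2
    by_contra hwi
    have h2 := hmin (fun i => v i && w i) (mem_filter.2 ⟨mem_univ _, hand v w hfv hw⟩)
    have h3 : (univ.filter fun i => (v i && w i) = true) ⊂ (univ.filter fun i => v i = true) := by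
      rw [Finset.ssubset_iff_of_subset]
      · exact ⟨i, by simp [hvi], by simp [hvi, hwi]⟩
      · intro j hj
        have := (mem_filter.1 hj).2
        rw [Bool.and_eq_true] at this
        simp [this.1]
    exact absurd (card_lt_card h3) (not_lt.2 h2)
  · refine hmono v w (fun i hi => hw i (by simp [hi])) hfv

theorem classify {k : ℕ} (f : (Fin k → Bool) → Bool) (P : Op3 → Prop)
    (p1 : P fun a _ _ => a) (p2 : P fun _ b _ => b) (p3 : P fun _ _ c => c)
    (hf : ∀ g : Fin k → Op3, (∀ i, P (g i)) → P fun a b c => f fun i => g i a b c)
    (hcomp : ∀ h g1 g2 g3 : Op3, P h → P g1 → P g2 → P g3 →
      P fun a b c => h (g1 a b c) (g2 a b c) (g3 a b c))
    (hne : ∃ v, f v = true) (hconj : ¬ IsConj f) :
    P (fun a _ _ => !a) ∨ P (fun a b c => xor a (xor b c)) ∨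
    P (fun a b c => (a && b) || (b && c) || (a && c)) ∨ P (fun a b _ => a || b) ∨
    P (fun a b c => a && (b || c)) := by
  classical
  have bin : ∀ v : Fin k → Bool, P fun a b _ => f fun i => if v i then a else b := by
    intro v
    refine hf (fun i a b _ => if v i then a else b) fun i => ?_
    cases v i
    · simpa using p2
    · simpa using p1
  have ev : ∀ v : Fin k → Bool, (fun i => if v i then true else false) = v := by
    intro v; funext i; cases v i <;> rfl
  have en : ∀ v : Fin k → Bool, (fun i => if v i then false else true) = fun i => !v i := by
    intro v; funext i; cases v i <;> rfl
  have ec : ∀ (v : Fin k → Bool) (a : Bool), (fun i => if v i then a else a) = fun _ => a := by
    intro v a; funext i; cases v i <;> rfl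
  rcases h0 : f (fun _ => false) with _ | _
  · rcases h1 : f (fun _ => true) with _ | _
    · -- f(0) = 0, f(1) = 0
      obtain ⟨v, hv⟩ := hne
      have hg := bin v
      rcases h2 : f (fun i => !v i) with _ | _
      · have e : (fun a b (_ : Bool) => f fun i => if v i then a else b) =
            fun a b (_ : Bool) => a && !b := by
          funext a b c
          cases a <;> cases b <;> simp only [ev, en, ec, h0, h1, h2, hv] <;> rfl
        rw [e] at hg
        have h3 := hcomp _ _ _ _ hg hg p3 p3
        have h4 := hcomp _ _ _ _ hg p1 h3 p3
        right; right; right; right
        have e2 : (fun a b c : Bool => a && !((a && !b) && !c)) = fun a b c => a && (b || c) := by
          decide
        rw [← e2]
        exact h4
      · have e : (fun a b (_ : Bool) => f fun i => if v i then a else b) =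
            fun a b (_ : Bool) => xor a b := by
          funext a b c
          cases a <;> cases b <;> simp only [ev, en, ec, h0, h1, h2, hv] <;> rfl
        rw [e] at hg
        have h3 := hcomp _ _ _ _ hg hg p3 p3
        right; left
        have e2 : (fun a b c : Bool => xor (xor a b) c) = fun a b c => xor a (xor b c) := by
          decide
        rw [← e2]
        exact h3
    · -- f(0) = 0, f(1) = 1
      by_cases hA : ∃ v, f v = true ∧ f (fun i => !v i) = true
      · obtain ⟨v, hv, h2⟩ := hA
        have hg := bin v
        have e : (fun a b (_ : Bool) => f fun i => if v i then a else b) =
            fun a b (_ : Bool) => a || b := by
          funext a b c
          cases a <;> cases b <;> simp only [ev, en, ec, h0, h1, h2, hv] <;> rfl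
        rw [e] at hg
        right; right; right; left
        exact hg
      · by_cases hM : ∀ v w : Fin k → Bool, (∀ i, v i = true → w i = true) →
          f v = true → f w = true
        · -- monotone
          have hI : ∃ v w : Fin k → Bool, f v = true ∧ f w = true ∧
              f (fun i => v i && w i) = false := by
            by_contra hcon
            push Not at hcon
            refine hconj (conj_of_closed f hne hM fun v w hv hw => ?_)
            have := hcon v w hv hw
            simpa using this
          obtain ⟨v, w, hv, hw, hvw⟩ := hI
          by_cases hB : ∃ u, f u = false ∧ f (fun i => !u i) = false
          · -- the conjunction is in P
            obtain ⟨u, hu, hu2⟩ := hB
            have hg := bin u
            have e : (fun a b (_ : Bool) => f fun i => if u i then a else b) =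
                fun a b (_ : Bool) => a && b := by
              funext a b c
              cases a <;> cases b <;> simp only [ev, en, ec, h0, h1, hu, hu2] <;> rfl
            rw [e] at hg
            have hab : P fun a b _ => a && b := hg
            have hac : P fun a _ c => a && c := hcomp _ _ _ _ hg p1 p3 p3
            have habc : P fun a b c => (a && b) && c := hcomp _ _ _ _ hg hab p3 p3
            have hq := hf (fun i a b c => if v i then (if w i then a else a && b) else
              (if w i then a && c else (a && b) && c)) (by
                intro i
                cases v i <;> cases w i
                · simpa using habc
                · simpa using hac
                · simpa using hab
                · simpa using p1)
            right; right; right; right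
            have e2 : (fun a b c => f fun i => if v i then (if w i then a else a && b) else
              (if w i then a && c else (a && b) && c)) = fun a b c => a && (b || c) := by
              funext a b c
              cases a
              · have : (fun i => if v i then (if w i then false else false && b) else
                  (if w i then false && c else (false && b) && c)) = fun _ => false := by
                  funext i; cases v i <;> cases w i <;> rfl
                rw [this, h0]; rfl
              · cases b <;> cases c
                · have : (fun i => if v i then (if w i then true else true && false) else
                    (if w i then true && false else (true && false) && false)) =
                      fun i => v i && w i := by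
                    funext i; cases v i <;> cases w i <;> rfl
                  rw [this, hvw]; rfl
                · have : (fun i => if v i then (if w i then true else true && false) else
                    (if w i then true && true else (true && false) && true)) = w := by
                    funext i; cases v i <;> cases w i <;> rfl
                  rw [this, hw]; rfl
                · have : (fun i => if v i then (if w i then true else true && true) else
                    (if w i then true && false else (true && true) && false)) = v := by
                    funext i; cases v i <;> cases w i <;> rfl
                  rw [this, hv]; rfl
                · have : (fun i => if v i then (if w i then true else true && true) else
                    (if w i then true && true else (true && true) && true)) =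
                      fun _ => true := by
                    funext i; cases v i <;> cases w i <;> rfl
                  rw [this, h1]; rfl
            rw [← e2]
            exact hq
          · -- self-dual and monotone: majority
            have hsd : ∀ u, f (fun i => !u i) = !f u := by
              intro u
              rcases hu : f u with _ | _
              · rcases hu2 : f (fun i => !u i) with _ | _
                · exact absurd ⟨u, hu, hu2⟩ hB
                · rfl
              · rcases hu2 : f (fun i => !u i) with _ | _
                · rfl
                · exact absurd ⟨u, hu, hu2⟩ hA
            have hq := hf (fun i a b c => if v i then (if w i then a else b) else c) (by
                intro i
                cases v i <;> cases w i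
                · simpa using p3
                · simpa using p3
                · simpa using p2
                · simpa using p1)
            have g110 : f (fun i => if v i then (if w i then true else true) else false) = true := by
              have : (fun i => if v i then (if w i then true else true) else false) = v := by
                funext i; cases v i <;> cases w i <;> rfl
              rw [this, hv]
            have g101 : f (fun i => if v i then (if w i then true else false) else true) = true := by
              refine hM w _ (fun i hi => ?_) hw
              rw [hi]; cases v i <;> rfl
            have g100 : f (fun i => if v i then (if w i then true else false) else false) =
                false := by
              have : (fun i => if v i then (if w i then true else false) else false) =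
                  fun i => v i && w i := by
                funext i; cases v i <;> cases w i <;> rfl
              rw [this, hvw]
            have g111 : f (fun i => if v i then (if w i then true else true) else true) =
                true := by
              have : (fun i => if v i then (if w i then true else true) else true) =
                  fun _ => true := by
                funext i; cases v i <;> cases w i <;> rfl
              rw [this, h1]
            have g011 : f (fun i => if v i then (if w i then false else true) else true) =
                true := by
              have : (fun i => if v i then (if w i then false else true) else true) =
                  fun i => !(if v i then (if w i then true else false) else false) := by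
                funext i; cases v i <;> cases w i <;> rfl
              rw [this, hsd, g100]; rfl
            have g001 : f (fun i => if v i then (if w i then false else false) else true) =
                false := by
              have : (fun i => if v i then (if w i then false else false) else true) =
                  fun i => !(if v i then (if w i then true else true) else false) := by
                funext i; cases v i <;> cases w i <;> rfl
              rw [this, hsd, g110]; rfl
            have g010 : f (fun i => if v i then (if w i then false else true) else false) =
                false := by
              have : (fun i => if v i then (if w i then false else true) else false) =
                  fun i => !(if v i then (if w i then true else false) else true) := by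
                funext i; cases v i <;> cases w i <;> rfl
              rw [this, hsd, g101]; rfl
            have g000 : f (fun i => if v i then (if w i then false else false) else false) =
                false := by
              have : (fun i => if v i then (if w i then false else false) else false) =
                  fun _ => false := by
                funext i; cases v i <;> cases w i <;> rfl
              rw [this, h0]
            right; right; left
            have e2 : (fun a b c => f fun i => if v i then (if w i then a else b) else c) =
                fun a b c => (a && b) || (b && c) || (a && c) := by
              funext a b c
              cases a <;> cases b <;> cases c
              · rw [g000]; rfl
              · rw [g001]; rfl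
              · rw [g010]; rfl
              · rw [g011]; rfl
              · rw [g100]; rfl
              · rw [g101]; rfl
              · rw [g110]; rfl
              · rw [g111]; rfl
            rw [← e2]
            exact hq
        · -- not monotone
          push Not at hM
          obtain ⟨v, w, hvw, hv, hw⟩ := hM
          have hw : f w = false := by simpa using hw
          by_cases hB : ∃ u, f u = false ∧ f (fun i => !u i) = false
          · obtain ⟨u, hu, hu2⟩ := hB
            have hg := bin u
            have e : (fun a b (_ : Bool) => f fun i => if u i then a else b) =
                fun a b (_ : Bool) => a && b := by
              funext a b c
              cases a <;> cases b <;> simp only [ev, en, ec, h0, h1, hu, hu2] <;> rfl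
            rw [e] at hg
            have hab : P fun a b _ => a && b := hg
            have habc : P fun a b c => (a && b) && c := hcomp _ _ _ _ hg hab p3 p3
            have hq := hf (fun i a b c => if v i then a else
              (if w i then a && b else (a && b) && c)) (by
                intro i
                cases v i <;> cases w i
                · simpa using habc
                · simpa using hab
                · simpa using p1
                · simpa using p1)
            have e2 : (fun a b c => f fun i => if v i then a else
              (if w i then a && b else (a && b) && c)) = fun a b c => a && (!b || c) := by
              funext a b c
              cases a
              · have : (fun i => if v i then false else
                  (if w i then false && b else (false && b) && c)) = fun _ => false := by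
                  funext i; cases v i <;> cases w i <;> rfl
                rw [this, h0]; rfl
              · cases b
                · have : (fun i => if v i then true else
                    (if w i then true && false else (true && false) && c)) = v := by
                    funext i; cases v i <;> cases w i <;> rfl
                  rw [this, hv]; rfl
                · cases c
                  · have : (fun i => if v i then true else
                      (if w i then true && true else (true && true) && false)) = w := by
                      funext i
                      have := hvw i
                      cases hvi : v i <;> cases hwi : w i <;> simp_all
                    rw [this, hw]; rfl
                  · have : (fun i => if v i then true else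
                      (if w i then true && true else (true && true) && true)) =
                        fun _ => true := by
                      funext i; cases v i <;> cases w i <;> rfl
                    rw [this, h1]; rfl
            rw [e2] at hq
            right; right; right; right
            have h3 := hcomp _ _ _ _ hq p1 hq p3
            have e3 : (fun a b c : Bool => a && (!(a && (!b || c)) || c)) =
                fun a b c => a && (b || c) := by decide
            rw [← e3]
            exact h3
          · have hsd : ∀ u, f (fun i => !u i) = !f u := by
              intro u
              rcases hu : f u with _ | _
              · rcases hu2 : f (fun i => !u i) with _ | _
                · exact absurd ⟨u, hu, hu2⟩ hB
                · rfl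
              · rcases hu2 : f (fun i => !u i) with _ | _
                · rfl
                · exact absurd ⟨u, hu, hu2⟩ hA
            have hq := hf (fun i a b c => if v i then a else (if w i then b else c)) (by
                intro i
                cases v i <;> cases w i
                · simpa using p3
                · simpa using p2
                · simpa using p1
                · simpa using p1)
            have g000 : f (fun i => if v i then false else (if w i then false else false)) =
                false := by
              have : (fun i => if v i then false else (if w i then false else false)) =
                  fun _ => false := by
                funext i; cases v i <;> cases w i <;> rfl
              rw [this, h0]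
            have g111 : f (fun i => if v i then true else (if w i then true else true)) =
                true := by
              have : (fun i => if v i then true else (if w i then true else true)) =
                  fun _ => true := by
                funext i; cases v i <;> cases w i <;> rfl
              rw [this, h1]
            have g100 : f (fun i => if v i then true else (if w i then false else false)) =
                true := by
              have : (fun i => if v i then true else (if w i then false else false)) = v := by
                funext i; cases v i <;> cases w i <;> rfl
              rw [this, hv]
            have g110 : f (fun i => if v i then true else (if w i then true else false)) =
                false := by
              have : (fun i => if v i then true else (if w i then true else false)) = w := by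
                funext i
                have := hvw i
                cases hvi : v i <;> cases hwi : w i <;> simp_all
              rw [this, hw]
            have g001 : f (fun i => if v i then false else (if w i then false else true)) =
                true := by
              have : (fun i => if v i then false else (if w i then false else true)) =
                  fun i => !(if v i then true else (if w i then true else false)) := by
                funext i; cases v i <;> cases w i <;> rfl
              rw [this, hsd, g110]; rfl
            have g011 : f (fun i => if v i then false else (if w i then true else true)) =
                false := by
              have : (fun i => if v i then false else (if w i then true else true)) =
                  fun i => !(if v i then true else (if w i then false else false)) := by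
                funext i; cases v i <;> cases w i <;> rfl
              rw [this, hsd, g100]; rfl
            have g101 : f (fun i => if v i then true else (if w i then false else true)) =
                !f (fun i => if v i then false else (if w i then true else false)) := by
              have : (fun i => if v i then true else (if w i then false else true)) =
                  fun i => !(if v i then false else (if w i then true else false)) := by
                funext i; cases v i <;> cases w i <;> rfl
              rw [this, hsd]
            rcases g010 : f (fun i => if v i then false else (if w i then true else false))
              with _ | _
            · rw [g010] at g101
              have e2 : (fun a b c => f fun i => if v i then a else (if w i then b else c)) =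
                  fun a b c => (a && !b) || (a && c) || (!b && c) := by
                funext a b c
                cases a <;> cases b <;> cases c
                · rw [g000]; rfl
                · rw [g001]; rfl
                · rw [g010]; rfl
                · rw [g011]; rfl
                · rw [g100]; rfl
                · rw [g101]; rfl
                · rw [g110]; rfl
                · rw [g111]; rfl
              rw [e2] at hq
              have h3 := hcomp _ _ _ _ hq p1 hq p3
              right; right; left
              have e3 : (fun a b c : Bool => (a && !((a && !b) || (a && c) || (!b && c))) ||
                  (a && c) || (!((a && !b) || (a && c) || (!b && c)) && c)) =
                  fun a b c => (a && b) || (b && c) || (a && c) := by decide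
              rw [← e3]
              exact h3
            · rw [g010] at g101
              right; left
              have e2 : (fun a b c => f fun i => if v i then a else (if w i then b else c)) =
                  fun a b c => xor a (xor b c) := by
                funext a b c
                cases a <;> cases b <;> cases c
                · rw [g000]; rfl
                · rw [g001]; rfl
                · rw [g010]; rfl
                · rw [g011]; rfl
                · rw [g100]; rfl
                · rw [g101]; rfl
                · rw [g110]; rfl
                · rw [g111]; rfl
              rw [← e2]
              exact hq
  · rcases h1 : f (fun _ => true) with _ | _
    · -- negation
      left
      have hg := bin fun _ => true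
      have e : (fun a b (_ : Bool) => f fun _ => if (true : Bool) then a else b) =
          fun a (_ : Bool) (_ : Bool) => !a := by
        funext a b c
        cases a
        · simp only [if_true, h0]; rfl
        · simp only [if_true, h1]; rfl
      rw [← e]
      exact hg
    · -- f(0) = f(1) = 1
      have hex : ∃ v, f v = false := by
        by_contra hcon
        push Not at hcon
        exact hconj ⟨∅, fun v => ⟨fun _ => by simp, fun _ => by simpa using hcon v⟩⟩
      obtain ⟨v, hv⟩ := hex
      have hg := bin v
      rcases h2 : f (fun i => !v i) with _ | _
      · have e : (fun a b (_ : Bool) => f fun i => if v i then a else b) =
            fun a b (_ : Bool) => !(xor a b) := by
          funext a b c
          cases a <;> cases b <;> simp only [ev, en, ec, h0, h1, h2, hv] <;> rfl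
        rw [e] at hg
        have h3 := hcomp _ _ _ _ hg hg p3 p3
        right; left
        have e2 : (fun a b c : Bool => !(xor (!(xor a b)) c)) = fun a b c => xor a (xor b c) := by
          decide
        rw [← e2]
        exact h3
      · have e : (fun a b (_ : Bool) => f fun i => if v i then a else b) =
            fun a b (_ : Bool) => !a || b := by
          funext a b c
          cases a <;> cases b <;> simp only [ev, en, ec, h0, h1, h2, hv] <;> rfl
        rw [e] at hg
        have h3 := hcomp _ _ _ _ hg hg p2 p2
        right; right; right; left
        have e2 : (fun a b (_ : Bool) => !(!a || b) || b) = fun a b (_ : Bool) => a || b := by
          decide
        rw [← e2]
        exact h3

end Q112.BFC
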