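import Pool.Agent.Q112.BFC.Few
import Pool.Agent.Q112.BFC.Ops

/-!
# Beck–Fiala for set systems closed under Boolean operations
-/

set_option autoImplicit false

open Finset

namespace Q112.BFC

/-- the Boolean operation `f` applied to sets -/
def app {n k : ℕ} (f : (Fin k → Bool) → Bool) (T : Fin k → Finset (Fin n)) : Finset (Fin n) :=
  univ.filter fun x => f (fun i => decide (x ∈ T i)) = true

/-- the family `F` is closed under `f` -/
def ClosedUnder {n k : ℕ} (f : (Fin k → Bool) → Bool) (F : Finset (Finset (Fin n))) : Prop :=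
  ∀ T : Fin k → Finset (Fin n), (∀ i, T i ∈ F) → app f T ∈ F

/-- closed under a ternary operation -/
def C3 {n : ℕ} (F : Finset (Finset (Fin n))) (g : Op3) : Prop :=
  ∀ S ∈ F, ∀ T ∈ F, ∀ U ∈ F, ∃ V ∈ F, ∀ x, x ∈ V ↔
    g (decide (x ∈ S)) (decide (x ∈ T)) (decide (x ∈ U)) = true

theorem bf_closed : ∃ C : ℝ, 0 < C ∧ ∀ (n t : ℕ) (F : Finset (Finset (Fin n))),
    (∀ v, (F.filter fun S => v ∈ S).card ≤ t) →
    (RelUnion F ∨ ∃ (k : ℕ) (f : (Fin k → Bool) → Bool), ¬ IsConj f ∧ (∃ v, f v = true) ∧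
      ClosedUnder f F) →
    ∃ x : Fin n → ℝ, (∀ j, x j = 1 ∨ x j = -1) ∧ ∀ S ∈ F, |∑ j ∈ S, x j| ≤ C * Real.sqrt t := by
  classical
  obtain ⟨C, hC, h⟩ := relUnion_bf
  have hC0 : (0 : ℝ) < max C 8002 := lt_max_of_lt_left hC
  have weak : ∀ {n : ℕ} (t : ℕ) (F : Finset (Finset (Fin n))) (C' : ℝ), C' ≤ max C 8002 →
      (∃ x : Fin n → ℝ, (∀ j, x j = 1 ∨ x j = -1) ∧ ∀ S ∈ F, |∑ j ∈ S, x j| ≤ C' * Real.sqrt t) →
      ∃ x : Fin n → ℝ, (∀ j, x j = 1 ∨ x j = -1) ∧
        ∀ S ∈ F, |∑ j ∈ S, x j| ≤ max C 8002 * Real.sqrt t := by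
    rintro n t F C' hC' ⟨x, hx, hb⟩
    exact ⟨x, hx, fun S hS => (hb S hS).trans (by gcongr)⟩
  refine ⟨max C 8002, hC0, fun n t F hd hF => ?_⟩
  rcases hF with hF | ⟨k, f, hconj, hne, hf⟩
  · exact weak t F C (le_max_left _ _) (h n t F hd hF)
  · have hcl := classify f (C3 F)
      (fun S hS T _ U _ => ⟨S, hS, fun x => by simp⟩)
      (fun S _ T hT U _ => ⟨T, hT, fun x => by simp⟩)
      (fun S _ T _ U hU => ⟨U, hU, fun x => by simp⟩)
      (by
        intro g hg S hS T hT U hU
        choose V hV hx using fun i => hg i S hS T hT U hU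
        refine ⟨app f V, hf V hV, fun x => ?_⟩
        unfold app
        rw [mem_filter, and_iff_right (mem_univ _)]
        have e : (fun i => decide (x ∈ V i)) =
            fun i => g i (decide (x ∈ S)) (decide (x ∈ T)) (decide (x ∈ U)) := by
          funext i
          have h1 := hx i x
          by_cases h2 : x ∈ V i
          · rw [decide_eq_true h2, h1.1 h2]
          · rw [decide_eq_false h2]
            rcases h3 : g i (decide (x ∈ S)) (decide (x ∈ T)) (decide (x ∈ U)) with _ | _
            · rfl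
            · exact absurd (h1.2 h3) h2
        rw [e])
      (by
        intro q g1 g2 g3 hq h1 h2 h3 S hS T hT U hU
        obtain ⟨V1, hV1, hx1⟩ := h1 S hS T hT U hU
        obtain ⟨V2, hV2, hx2⟩ := h2 S hS T hT U hU
        obtain ⟨V3, hV3, hx3⟩ := h3 S hS T hT U hU
        obtain ⟨V, hV, hx⟩ := hq V1 hV1 V2 hV2 V3 hV3
        refine ⟨V, hV, fun x => ?_⟩
        rw [hx]
        have e : ∀ (W : Finset (Fin n)) (b : Bool), (x ∈ W ↔ b = true) → decide (x ∈ W) = b := by
          intro W b hb
          cases b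
          · simp only [Bool.false_eq_true, iff_false] at hb
            simp [hb]
          · simp only [iff_true] at hb
            simp [hb]
        rw [e V1 _ (hx1 x), e V2 _ (hx2 x), e V3 _ (hx3 x)])
      hne hconj
    rcases hcl with hc | hc | hc | hc | hc
    · -- complement
      refine weak t F 8002 (le_max_right _ _) (few t F hd (compl_few t F hd ?_))
      intro S hS
      obtain ⟨V, hV, hx⟩ := hc S hS S hS S hS
      exact ⟨V, hV, fun x => by rw [hx]; simp⟩
    · -- sum
      exact weak t F 8002 (le_max_right _ _) (few t F hd (affine_few t F hd hc))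
    · -- majority
      refine median_bf h t F hd ?_
      intro S hS T hT U hU
      obtain ⟨V, hV, hx⟩ := hc S hS T hT U hU
      refine ⟨V, hV, fun x => ?_⟩
      rw [hx]
      simp only [Bool.or_eq_true, Bool.and_eq_true, decide_eq_true_eq, or_assoc]
    · refine weak t F C (le_max_left _ _) (h n t F hd ?_)
      intro S hS T hT U hU
      obtain ⟨V, hV, hx⟩ := hc T hT U hU S hS
      refine ⟨V, hV, ?_⟩
      ext x
      rw [mem_inter, mem_inter, mem_union, hx]
      simp
    · refine weak t F C (le_max_left _ _) (h n t F hd ?_)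
      intro S hS T hT U hU
      obtain ⟨V, hV, hx⟩ := hc S hS T hT U hU
      refine ⟨V, hV, ?_⟩
      ext x
      rw [mem_inter, mem_inter, mem_union, hx]
      simp only [Bool.or_eq_true, Bool.and_eq_true, decide_eq_true_eq]
      tauto

/-- the Beck–Fiala conjecture for the systems whose set of members has the property `P` -/
def Conj (P : ∀ n : ℕ, Finset (Finset (Fin n)) → Prop) : Prop :=
  ∃ C : ℝ, 0 < C ∧ ∀ (n m t : ℕ) (S : Fin m → Finset (Fin n)), P n (univ.image S) →
    (∀ i : Fin n, (univ.filter (fun j : Fin m => i ∈ S j)).card ≤ t) →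
    ∃ χ : Fin n → ℤ, (∀ i, χ i = 1 ∨ χ i = -1) ∧
      ∀ j : Fin m, ((|∑ i ∈ S j, χ i| : ℤ) : ℝ) ≤ C * Real.sqrt (t : ℝ)

theorem Conj.mono {P Q : ∀ n : ℕ, Finset (Finset (Fin n)) → Prop} (h : Conj P)
    (hQ : ∀ n F, Q n F → P n F) : Conj Q := by
  obtain ⟨C, hC, h⟩ := h
  exact ⟨C, hC, fun n m t S hS hd => h n m t S (hQ _ _ hS) hd⟩

theorem conj_closed : Conj fun n F => RelUnion F ∨ ∃ (k : ℕ) (f : (Fin k → Bool) → Bool),
    ¬ IsConj f ∧ (∃ v, f v = true) ∧ ClosedUnder f F := by
  classical
  obtain ⟨C, hC, h⟩ := bf_closed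
  refine ⟨C, hC, fun n m t S hS hd => ?_⟩
  obtain ⟨x, hx, hb⟩ := h n t (univ.image S) (by
    intro v
    refine le_trans ?_ (hd v)
    have : ((univ.image S).filter fun T => v ∈ T) ⊆
        (univ.filter fun j => v ∈ S j).image S := by
      intro T hT
      obtain ⟨h1, h2⟩ := mem_filter.1 hT
      obtain ⟨j, -, rfl⟩ := mem_image.1 h1
      exact mem_image.2 ⟨j, mem_filter.2 ⟨mem_univ _, h2⟩, rfl⟩
    exact (card_le_card this).trans card_image_le) hS
  refine ⟨fun i => if x i = 1 then 1 else -1, fun i => by dsimp only; split_ifs <;> simp,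
    fun j => ?_⟩
  have h1 := hb (S j) (mem_image_of_mem _ (mem_univ _))
  have e : ((∑ i ∈ S j, (if x i = 1 then 1 else -1 : ℤ) : ℤ) : ℝ) = ∑ i ∈ S j, x i := by
    push_cast
    refine sum_congr rfl fun i _ => ?_
    rcases hx i with h | h
    · simp [h]
    · rw [h]; norm_num
  have e2 : ((|∑ i ∈ S j, (if x i = 1 then 1 else -1 : ℤ)| : ℤ) : ℝ) = |∑ i ∈ S j, x i| := by
    rw [← e]
    exact Int.cast_abs
  rw [e2]
  exact h1

/-- adding the empty set and the whole ground set -/
theorem conj_extend {P Q : ∀ n : ℕ, Finset (Finset (Fin n)) → Prop} (h : Conj P)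
    (hQ : ∀ n F, Q n F → P n (insert ∅ (insert univ F))) : Conj Q := by
  classical
  obtain ⟨C, hC, h⟩ := h
  refine ⟨2 * C, by positivity, fun n m t S hS hd => ?_⟩
  rcases Nat.eq_zero_or_pos t with rfl | ht
  · refine ⟨fun _ => 1, fun _ => Or.inl rfl, fun j => ?_⟩
    have : S j = ∅ := by
      rw [eq_empty_iff_forall_notMem]
      intro v hv
      have h1 : 0 < (univ.filter fun j => v ∈ S j).card :=
        card_pos.2 ⟨j, mem_filter.2 ⟨mem_univ _, hv⟩⟩
      have := hd v
      omega
    rw [this]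
    simp
  have e : univ.image (Fin.cons ∅ (Fin.cons univ S) : Fin (m + 2) → Finset (Fin n)) =
      insert ∅ (insert univ (univ.image S)) := by
    ext T
    simp only [mem_image, mem_univ, true_and, mem_insert]
    rw [Fin.exists_fin_succ, Fin.exists_fin_succ]
    simp only [Fin.cons_zero, Fin.cons_succ]
    constructor
    · rintro (h | h | ⟨j, h⟩)
      · exact Or.inl h.symm
      · exact Or.inr (Or.inl h.symm)
      · exact Or.inr (Or.inr ⟨j, h⟩)
    · rintro (h | h | ⟨j, h⟩)
      · exact Or.inl h.symm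
      · exact Or.inr (Or.inl h.symm)
      · exact Or.inr (Or.inr ⟨j, h⟩)
  obtain ⟨χ, hχ, hb⟩ := h n (m + 2) (t + 1) (Fin.cons ∅ (Fin.cons univ S))
    (by rw [e]; exact hQ _ _ hS)
    (by
      intro v
      rw [card_filter, Fin.sum_univ_succ, Fin.sum_univ_succ]
      simp only [Fin.cons_zero, Fin.cons_succ, notMem_empty, if_false, mem_univ, if_true, zero_add]
      have := hd v
      rw [card_filter] at this
      omega)
  refine ⟨χ, hχ, fun j => ?_⟩
  have h1 := hb j.succ.succ
  simp only [Fin.cons_succ] at h1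
  refine h1.trans ?_
  have ht' : (1 : ℝ) ≤ t := by exact_mod_cast ht
  have h2 : Real.sqrt ((t + 1 : ℕ) : ℝ) ≤ 2 * Real.sqrt t := by
    rw [Real.sqrt_le_left (by positivity), mul_pow, Real.sq_sqrt (by linarith)]
    push_cast
    linarith
  nlinarith

/-- closed under intersection -/
def InterClosed {n : ℕ} (F : Finset (Finset (Fin n))) : Prop := ∀ S ∈ F, ∀ T ∈ F, S ∩ T ∈ F

theorem inter_closed_of {n k : ℕ} {f : (Fin k → Bool) → Bool} {I : Finset (Fin k)}
    (hI : ∀ v, f v = true ↔ ∀ i ∈ I, v i = true) (h2 : 1 < I.card)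
    {F : Finset (Finset (Fin n))} (hF : ClosedUnder f F) : InterClosed F := by
  classical
  obtain ⟨a, ha, b, hb, hab⟩ := one_lt_card.1 h2
  intro S hS T hT
  have h1 := hF (fun i => if i = a then S else T) (by intro i; split_ifs <;> assumption)
  have e : app f (fun i => if i = a then S else T) = S ∩ T := by
    ext x
    unfold app
    rw [mem_filter, and_iff_right (mem_univ _), hI, mem_inter]
    constructor
    · intro h
      have h3 := h a ha
      have h4 := h b hb
      simp only [if_true, decide_eq_true_eq] at h3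
      simp only [if_neg (Ne.symm hab), decide_eq_true_eq] at h4
      exact ⟨h3, h4⟩
    · rintro ⟨h3, h4⟩ i _
      dsimp only
      split_ifs
      · simpa using h3
      · simpa using h4
  rw [e] at h1
  exact h1

theorem closed_conj {n k : ℕ} {f : (Fin k → Bool) → Bool} {I : Finset (Fin k)}
    (hI : ∀ v, f v = true ↔ ∀ i ∈ I, v i = true) {F : Finset (Finset (Fin n))}
    (hu : univ ∈ F) (hF : InterClosed F) : ClosedUnder f F := by
  classical
  intro T hT
  have e : app f T = I.inf T := by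
    ext x
    unfold app
    rw [mem_filter, and_iff_right (mem_univ _), hI, Finset.mem_inf]
    simp
  rw [e]
  clear hI e
  induction I using Finset.induction_on with
  | empty => simpa using hu
  | insert a I _ ih =>
    rw [inf_insert]
    exact hF _ (hT a) _ ih

end Q112.BFC
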